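import Pool.Agent.Run7.h702.CT.C
import Pool.Agent.Results.MP_dee342_nt.TotientOrbits

/-!
# Cycles of the maps `T_{a,b}` and ALL the terms of almost every Collatz trajectory

Let `v` run through the terms of the trajectory of `m` under the Collatz map (`n / 2`, `3 n + 1`) before its first value smaller
than `Y`. Let `α > 0`, `d ≥ 1` and `κ ≥ 0`. There is `η > 0` with: for every `B` there is `K` such that for all `Y ≥ 2` and `N`,
for all `m ≤ N` but at most `K N / (log Y) ^ B`, the trajectory has a value smaller than `Y`, and for EVERY term `v` before it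
and ALL `1 ≤ c ≤ v ^ η`

* if `12 d / 13 + κ < 1`: no cycle of the `3x+1` map on the integers has a number of elements within `v ^ (κ + η)` of
  `c α v ^ d`;
* if `a ≥ 3` and `b` are odd and `d H + κ ≤ 1`, where `H < 1` is the binary entropy of `log 2 / log a`: no cycle of `T_{a,b}` on
  the integers (`3x+1` and `5x+1` among them) has its largest element in absolute value within `v ^ (κ + η)` of `c α v ^ d`.

So if `F` tends to infinity, however slowly, then for almost every `m` all the terms of the Collatz trajectory of `m` down to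
its first value smaller than `F m` keep this distance (`κ` close to `1 - H = 0.05` for `a = 3`, `d = 1`) from the tops of ALL
cycles of the maps `T_{a,b}`, and so do their multiples. More generally `G v` takes the place of `α v ^ d`, where `G` is any
function with steps bounded below by a positive constant and growth at most `v ^ d`.

The terms of the trajectory of a random integer are not distributed like random integers of their size. The tool is the
avoidance of thin sets by all the terms of almost every trajectory (starting theorem; Tao's theorem in natural density), in the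
form of `Run7/h702/CT` (multiples and windows).
-/

set_option autoImplicit false

namespace Pool.Agent.Results.MP_dee342_nt.CollatzTerms

open Finset Filter Topology
open Pool.Agent.Results.MP_dee342_nt.TotientOrbits (T IsCycle top entropy le_top cycles_finite lengths_count)

/-- The Collatz map. -/
def collatz (n : ℕ) : ℕ := if n % 2 = 0 then n / 2 else 3 * n + 1

/-- The trajectory of `m` takes a value smaller than `Y`, and EVERY term `v` before it has the property `P`. -/
def AllTerms (P : ℕ → Prop) (Y : ℝ) (m : ℕ) : Prop :=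
  ∃ k : ℕ, ((collatz^[k] m : ℕ) : ℝ) < Y ∧ ∀ j < k, P (collatz^[j] m)

/-- `P` holds for all the terms of almost every trajectory: (1) for every `B` there is `K` such that `AllTerms P Y m` holds, for
all `Y ≥ 2` and `N`, for all the `m ∈ [1, N]` but at most `K N / (log Y)^B`; (2) for every function `F` which tends to infinity
the density of the `m` with `AllTerms P (F m) m` is `1`. -/
def OnAllTerms (P : ℕ → Prop) : Prop :=
  (∀ B : ℕ, ∃ K : ℝ, ∀ Y : ℝ, 2 ≤ Y → ∀ N : ℕ,
    (Set.ncard {m : ℕ | 1 ≤ m ∧ m ≤ N ∧ ¬ AllTerms P Y m} : ℝ) ≤ K * N / Real.log Y ^ B) ∧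
  ∀ F : ℕ → ℝ, Tendsto F atTop atTop →
    Tendsto (fun N : ℕ => (Set.ncard {m : ℕ | 1 ≤ m ∧ m ≤ N ∧ AllTerms P (F m) m} : ℝ) / N) atTop (𝓝 1)

/-- The steps of `G` are at least a positive constant, and `G` grows at most like `v ^ d`, `d ≥ 1`. -/
structure Expanding (G : ℕ → ℝ) (d : ℝ) : Prop where
  one_le : 1 ≤ d
  step : ∃ a : ℝ, 0 < a ∧ ∀ v : ℕ, 1 ≤ v → a ≤ G (v + 1) - G v
  growth : ∃ C : ℝ, ∀ v : ℕ, 1 ≤ v → G v ≤ C * (v : ℝ) ^ d

/-- `x` is near one of the small multiples of `G v`. -/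
def Near (G : ℕ → ℝ) (κ η : ℝ) (v : ℕ) (x : ℝ) : Prop :=
  ∃ a : ℕ, 1 ≤ a ∧ (a : ℝ) ≤ (v : ℝ) ^ η ∧ |x - a * G v| ≤ (v : ℝ) ^ (κ + η)

theorem ex_of {G : ℕ → ℝ} {d : ℝ} (h : Expanding G d) : Pool.Agent.N733.TG.Expanding G d := ⟨h.one_le, h.step, h.growth⟩

theorem ex_pow {a d : ℝ} (ha : 0 < a) (hd : 1 ≤ d) : Expanding (fun v => a * (v : ℝ) ^ d) d := by
  obtain ⟨h1, h2, h3⟩ := Pool.Agent.N733.TG.expanding_pow ha hd
  exact ⟨h1, h2, h3⟩

theorem on_of {P : ℕ → Prop} (h : Run7.h702.CT.OnAllTerms P) : OnAllTerms P := h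

/-- **Cycles and all the terms of almost every Collatz trajectory.** (1) `12 d / 13 + κ < 1`: the numbers of elements of the
cycles of the `3x+1` map. (2) `a ≥ 3`, `b` odd, `d H(a) + κ ≤ 1`: the largest elements of the cycles of `T_{a,b}`. -/
theorem result (G : ℕ → ℝ) (d : ℝ) (hG : Expanding G d) (κ : ℝ) (hκ : 0 ≤ κ) :
    (12 / 13 * d + κ < 1 → ∃ η : ℝ, 0 < η ∧
      OnAllTerms (fun v => ∀ Z : Finset ℤ, IsCycle 3 1 Z → ¬ Near G κ η v (Z.card : ℝ))) ∧
    (∀ (a : ℕ) (b : ℤ), 3 ≤ a → a % 2 = 1 → b % 2 = 1 → entropy a * d + κ ≤ 1 → ∃ η : ℝ, 0 < η ∧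
      OnAllTerms (fun v => ∀ Z : Finset ℤ, IsCycle a b Z → ¬ Near G κ η v (top Z : ℝ))) ∧
    (∀ a : ℕ, 3 ≤ a → a % 2 = 1 → entropy a < 1) ∧
    ∀ α d : ℝ, 0 < α → 1 ≤ d → Expanding (fun v => α * (v : ℝ) ^ d) d := by
  classical
  refine ⟨fun h1 => ?_, fun a b ha ha2 hb h1 => ?_, TotientOrbits.result.2.1, fun α d hα hd => ex_pow hα hd⟩
  · obtain ⟨C, hC⟩ := lengths_count
    obtain ⟨η, hη, h2⟩ := Run7.h702.CT.nat {p : ℕ | ∃ Z : Finset ℤ, IsCycle 3 1 Z ∧ Z.card = p} (ex_of hG)
      (s := 12 / 13) (κ := κ) (by norm_num) hκ (by linarith) (fun ε hε => ⟨|C|, fun X hX => by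
        refine le_trans (le_trans (le_of_eq (by congr!)) (hC X hX)) ?_
        refine (mul_le_mul_of_nonneg_right (le_abs_self C) (by positivity)).trans ?_
        exact mul_le_mul_of_nonneg_left
          (Real.rpow_le_rpow_of_exponent_le (by exact_mod_cast hX) (by linarith)) (abs_nonneg C)⟩)
    refine ⟨η, hη, on_of (h2.imp (fun v hv Z hZ hN => ?_))⟩
    obtain ⟨c, hc1, hc2, hc3⟩ := hN
    exact (hv c hc1 hc2 Z.card hc3).2 ⟨Z, hZ, rfl⟩
  · obtain ⟨η₀, hη0, hη, hH, hh⟩ := CyclesBelowEntropy.result a ha ha2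
    obtain ⟨C, hC0, hC⟩ := hh b hb
    have hd := hG.one_le
    obtain ⟨η, hη, h2⟩ := Run7.h702.CT.good' (fun _ : Finset ℤ => True) (fun Z => ¬ IsCycle a b Z)
      (fun Z => (top Z : ℝ)) (ex_of hG) (s := η₀) (κ := κ) hη0.le hκ (by
        have : η₀ < entropy a := hη
        nlinarith) ⟨C, fun X hX => by
        have hsub : {Z : Finset ℤ | (True ∧ ¬ ¬ IsCycle a b Z) ∧ (top Z : ℝ) ≤ X} ⊆
            {c : Finset ℤ | CyclesBelowEntropy.IsCycle (CyclesBelowEntropy.T a b) c ∧ ∀ x ∈ c, |(x : ℝ)| ≤ X} := by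
          rintro Z ⟨⟨_, h2⟩, h3⟩
          refine ⟨not_not.1 h2, fun x hx => (le_top hx).trans h3⟩
        have hfin := cycles_finite (CyclesBelowEntropy.T a b) X
        refine ⟨hfin.subset hsub, ?_⟩
        have h4 := Set.ncard_le_ncard hsub hfin
        have h5 : (({Z : Finset ℤ | (True ∧ ¬ ¬ IsCycle a b Z) ∧ (top Z : ℝ) ≤ X}.ncard : ℕ) : ℝ) ≤
            ({c : Finset ℤ | CyclesBelowEntropy.IsCycle (CyclesBelowEntropy.T a b) c ∧
              ∀ x ∈ c, |(x : ℝ)| ≤ X}.ncard : ℝ) := by exact_mod_cast h4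
        exact h5.trans (hC X hX)⟩
    refine ⟨η, hη, on_of (h2.imp (fun v hv Z hZ hN => ?_))⟩
    obtain ⟨c, hc1, hc2, hc3⟩ := hN
    exact hv c hc1 hc2 Z trivial hc3 hZ

end Pool.Agent.Results.MP_dee342_nt.CollatzTerms
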