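import Mathlib
import Pool.Agent.Run7.h195.IsoN

set_option autoImplicit false

/-!
# Integers which enter long cycles of the `3x + 1` map, and a local criterion for finiteness

Let `T = T_3` be the `3x + 1` map on the integers and `Long L` the set of the integers whose orbit
enters a periodic orbit with more than `L` elements. For `L ≥ 2`, if `Long L` contains an integer of
the sign `s`, then the odd `n` with `s n ∈ Long L` such that no even `m ≥ 1` with
`|m - n| ≤ exp ((log n) ^ θ)`, `θ < 1/2`, satisfies `s m ∈ Long L`, are infinitely many, and the sum of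
`exp ((log n) ^ θ) / n` over them diverges. For `2 ≤ L ≤ 10` and the negative integers this is
unconditional. Consequently `T_3` has only finitely many periodic orbits if and only if, for some
`L ≥ 2`, almost every odd integer in `Long L` has an even member of `Long L` nearby, in the sense that
the sum over the exceptions converges.

Method. By the starting file `W38/AFe` almost all long runs of integers of either sign merge, so that a
positive proportion of the integers `z` lie in long runs without members of an invariant set `S` (whose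
complement contains an integer of the sign `s`). If all odd members of `S` had even members nearby,
then halving would lead from every member of `S` near `2 ^ j z` down to a member near `z`; the
density of `S` forces many members without an even member nearby.
-/

namespace Pool.Agent.Results.MP_dee342_nt.LongCycles

open Filter

/-- The map `T_{3,1}` on the integers. -/
def T (x : ℤ) : ℤ := if x % 2 = 0 then x / 2 else (3 * x + 1) / 2

/-- `S` is invariant under the map and its inverse. -/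
def Invariant (S : Set ℤ) : Prop := ∀ x : ℤ, x ∈ S ↔ T x ∈ S

/-- The set `{x, T x, T² x, …}`. -/
def orbit (x : ℤ) : Set ℤ := {y | ∃ i : ℕ, T^[i] x = y}

/-- `C` is a periodic orbit (cycle) of the map. -/
def IsCycle (C : Set ℤ) : Prop := ∃ (x : ℤ) (p : ℕ), 1 ≤ p ∧ T^[p] x = x ∧ C = orbit x

/-- The integers whose orbit enters a periodic orbit with more than `L` elements. -/
def Long (L : ℕ) : Set ℤ := {x | ∃ C : Set ℤ, IsCycle C ∧ L < C.ncard ∧ ∃ m : ℕ, T^[m] x ∈ C}

/-- The odd `n ≥ 1` such that `s n` is in `S` and `s m` is not in `S` for every even `m ≥ 1` at a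
distance of at most `w n` from `n`. -/
def Isolated (s : ℤ) (w : ℕ → ℝ) (S : Set ℤ) : Set ℕ :=
  {n | n % 2 = 1 ∧ s * n ∈ S ∧ ∀ m : ℕ, 1 ≤ m → m % 2 = 0 → |(m : ℝ) - n| ≤ w n → ¬ s * (m : ℤ) ∈ S}

/-- The distance `exp ((log n) ^ θ)`. -/
noncomputable def radius (θ : ℝ) (n : ℕ) : ℝ := Real.exp (Real.log n ^ θ)

/-- The conclusions on the isolated members of `S` of sign `s`. -/
def ManyIsolated (s : ℤ) (S : Set ℤ) : Prop :=
  (∀ M : ℝ, 0 ≤ M → ¬ Summable fun n : Isolated s (fun _ => M) S => 1 / ((n : ℕ) : ℝ)) ∧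
    ∀ θ : ℝ, 0 < θ → θ < 1 / 2 → (Isolated s (radius θ) S).Infinite ∧
      ¬ Summable fun n : Isolated s (radius θ) S => radius θ n / ((n : ℕ) : ℝ)

/-! ### proofs -/

open Pool.Agent.Run7.h195.Iso

open Pool.Agent.W38.CR (GG)

open Pool.Agent.H499R2.ND (Ci)

theorem inv_Ci {S : Set ℤ} (hS : Invariant S) (x : ℤ) : x ∈ S ↔ Ci x ∈ S := by
  have h1 := hS x
  unfold T at h1
  unfold Ci
  by_cases h : x % 2 = 0
  · rw [if_pos h] at h1
    rw [if_pos h]
    exact h1
  · rw [if_neg h] at h1
    rw [if_neg h, h1]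
    have h2 := hS (3 * x + 1)
    unfold T at h2
    rw [if_pos (by omega)] at h2
    exact h2.symm

theorem compl_inv {S : Set ℤ} (hS : Invariant S) : Invariant Sᶜ := fun x => not_congr (hS x)

theorem part_θ {s : ℤ} (hs : s = 1 ∨ s = -1) {S : Set ℤ} (hS : Invariant S)
    (h1 : ∃ x ∈ S, 0 < s * x) (h2 : ∃ x, x ∉ S ∧ 0 < s * x) {θ : ℝ} (hθ : 0 < θ) (hθ1 : θ < 1 / 2) :
    ¬ Summable fun n : Isolated s (radius θ) S => radius θ n / ((n : ℕ) : ℝ) := by
  intro hsum
  refine mainN hs (inv_Ci hS) h1 h2 (w := ww θ) (fun n => (by linarith [one_le_ww θ n])) (ww_mono hθ)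
    (ww_small (by linarith)) (ww_three hθ (by linarith)) ?_ ?_
  · filter_upwards [ww_GG hθ hθ1] with x hx y hxy
    have h1 := hx y (by omega)
    have h2 := one_le_ww θ (4 * x)
    linarith
  · refine Summable.of_nonneg_of_le (fun n => ?_) (fun n => ?_) (hsum.mul_left 2)
    · have := one_le_ww θ n
      positivity
    · rw [← mul_div_assoc]
      apply div_le_div_of_nonneg_right _ (Nat.cast_nonneg _)
      have h3 := one_le_ww θ n
      show ww θ n + 1 ≤ 2 * ww θ n
      linarith

theorem part_M {s : ℤ} (hs : s = 1 ∨ s = -1) {S : Set ℤ} (hS : Invariant S)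
    (h1 : ∃ x ∈ S, 0 < s * x) (h2 : ∃ x, x ∉ S ∧ 0 < s * x) (M : ℝ) (hM : 0 ≤ M) :
    ¬ Summable fun n : Isolated s (fun _ => M) S => 1 / ((n : ℕ) : ℝ) := by
  intro hsum
  refine mainN hs (inv_Ci hS) h1 h2 (w := fun _ => M) (fun n => hM) monotone_const
    ?_ ?_ ?_ ?_
  · exact tendsto_natCast_atTop_atTop.eventually (eventually_ge_atTop (100 * M))
  · exact Eventually.of_forall fun n => by linarith
  · have h1 : Tendsto (fun x : ℕ => ww (1 / 4) (4 * x)) atTop atTop := by
      unfold ww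
      refine Real.tendsto_exp_atTop.comp ((tendsto_rpow_atTop (by norm_num)).comp
        (tendsto_log_nat.comp ?_))
      exact tendsto_atTop_mono (fun x => by show x ≤ 4 * x; omega) tendsto_id
    filter_upwards [ww_GG (θ := 1 / 4) (by norm_num) (by norm_num),
      h1.eventually (eventually_ge_atTop M)] with x hx h2 y hxy
    have h3 := hx y (by omega)
    have h4 := one_le_ww (1 / 4) (4 * x)
    linarith
  · have := hsum.mul_left (M + 1)
    refine this.congr fun n => ?_
    ring

theorem summable_of_finite {s : ℤ} {w : ℕ → ℝ} {S : Set ℤ} (h : (Isolated s w S).Finite)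
    (f : ℕ → ℝ) : Summable fun n : Isolated s w S => f n := by
  have := h.to_subtype
  exact Summable.of_finite

theorem many {s : ℤ} (hs : s = 1 ∨ s = -1) {S : Set ℤ} (hS : Invariant S)
    (h1 : ∃ x ∈ S, 0 < s * x) (h2 : ∃ x, x ∉ S ∧ 0 < s * x) : ManyIsolated s S :=
  ⟨part_M hs hS h1 h2, fun θ hθ hθ1 =>
    ⟨fun hfin => part_θ hs hS h1 h2 hθ hθ1
      (summable_of_finite hfin fun n => radius θ n / (n : ℝ)), part_θ hs hS h1 h2 hθ hθ1⟩⟩


/-! ### periodic orbits -/

theorem mult_per {x : ℤ} {p : ℕ} (h : T^[p] x = x) (k : ℕ) : T^[p * k] x = x := by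
  rw [Function.iterate_mul]
  exact Function.iterate_fixed h k

theorem orbit_eq {x y : ℤ} {p : ℕ} (hp : 1 ≤ p) (h : T^[p] x = x) (hy : y ∈ orbit x) :
    orbit y = orbit x := by
  obtain ⟨i, rfl⟩ := hy
  ext z
  constructor
  · rintro ⟨j, rfl⟩
    exact ⟨j + i, by rw [Function.iterate_add_apply]⟩
  · rintro ⟨j, rfl⟩
    refine ⟨p * i - i + j, ?_⟩
    have hi : i ≤ p * i := Nat.le_mul_of_pos_left i hp
    rw [← Function.iterate_add_apply, show p * i - i + j + i = j + p * i by omega,
      Function.iterate_add_apply, mult_per h]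

theorem cycle_eq {C : Set ℤ} (hC : IsCycle C) {y : ℤ} (hy : y ∈ C) : C = orbit y := by
  obtain ⟨x, p, hp, h, rfl⟩ := hC
  exact (orbit_eq hp h hy).symm

theorem cycle_T {C : Set ℤ} (hC : IsCycle C) {y : ℤ} (hy : y ∈ C) : T y ∈ C := by
  obtain ⟨x, p, hp, h, rfl⟩ := hC
  obtain ⟨i, rfl⟩ := hy
  exact ⟨i + 1, by rw [Function.iterate_succ_apply']⟩

theorem cycle_finite {C : Set ℤ} (hC : IsCycle C) : C.Finite := by
  obtain ⟨x, p, hp, h, rfl⟩ := hC
  refine ((Set.finite_Iio p).image fun i => T^[i] x).subset ?_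
  rintro y ⟨i, rfl⟩
  refine ⟨i % p, Nat.mod_lt _ hp, ?_⟩
  show T^[i % p] x = T^[i] x
  conv_rhs => rw [← Nat.mod_add_div i p, Function.iterate_add_apply, mult_per h]

theorem long_inv (L : ℕ) : Invariant (Long L) := by
  intro x
  constructor
  · rintro ⟨C, hC, hL, m, hm⟩
    refine ⟨C, hC, hL, m, ?_⟩
    rw [← Function.iterate_succ_apply, Function.iterate_succ_apply']
    exact cycle_T hC hm
  · rintro ⟨C, hC, hL, m, hm⟩
    exact ⟨C, hC, hL, m + 1, by rwa [Function.iterate_succ_apply]⟩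

theorem one_not_long {L : ℕ} (hL : 2 ≤ L) : (1 : ℤ) ∉ Long L := by
  rintro ⟨C, hC, hLC, m, hm⟩
  have h12 : ∀ m : ℕ, T^[m] 1 = 1 ∨ T^[m] 1 = 2 := by
    intro m
    induction m with
    | zero => left; rfl
    | succ m ih =>
      rw [Function.iterate_succ_apply']
      rcases ih with h | h
      · right; rw [h]; decide
      · left; rw [h]; decide
  have h22 : ∀ m : ℕ, T^[m] 2 = 1 ∨ T^[m] 2 = 2 := by
    intro m
    induction m with
    | zero => right; rfl
    | succ m ih =>
      rw [Function.iterate_succ_apply']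
      rcases ih with h | h
      · right; rw [h]; decide
      · left; rw [h]; decide
  have hsub : C ⊆ {1, 2} := by
    rw [cycle_eq hC hm]
    rintro z ⟨j, rfl⟩
    rcases h12 m with h | h
    · rw [h]
      rcases h12 j with h' | h' <;> simp [h']
    · rw [h]
      rcases h22 j with h' | h' <;> simp [h']
  have h1 := Set.ncard_le_ncard hsub (Set.toFinite _)
  have h2 : ({1, 2} : Set ℤ).ncard ≤ 2 := Set.ncard_insert_le 1 {2} |>.trans (by simp)
  omega

theorem neg_one_not_long {L : ℕ} (hL : 2 ≤ L) : (-1 : ℤ) ∉ Long L := by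
  rintro ⟨C, hC, hLC, m, hm⟩
  have h12 : ∀ m : ℕ, T^[m] (-1) = -1 := by
    intro m
    induction m with
    | zero => rfl
    | succ m ih => rw [Function.iterate_succ_apply', ih]; decide
  have hsub : C ⊆ {-1} := by
    rw [cycle_eq hC hm]
    rintro z ⟨j, rfl⟩
    rw [h12 m, h12 j]
    rfl
  have h1 := Set.ncard_le_ncard hsub (Set.toFinite _)
  rw [Set.ncard_singleton] at h1
  omega

theorem compl_long {s : ℤ} (hs : s = 1 ∨ s = -1) {L : ℕ} (hL : 2 ≤ L) :
    ∃ x, x ∉ Long L ∧ 0 < s * x := by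
  rcases hs with rfl | rfl
  · exact ⟨1, one_not_long hL, by norm_num⟩
  · exact ⟨-1, neg_one_not_long hL, by norm_num⟩

theorem long_ten : (-17 : ℤ) ∈ Long 10 := by
  have hC : IsCycle (orbit (-17)) := ⟨-17, 11, by norm_num, by decide, rfl⟩
  refine ⟨orbit (-17), hC, ?_, 0, ⟨0, rfl⟩⟩
  have hsub : ((Finset.range 11).image fun i => T^[i] (-17) : Finset ℤ) ⊆
      ((cycle_finite hC).toFinset : Finset ℤ) := by
    intro y hy
    obtain ⟨i, -, rfl⟩ := Finset.mem_image.1 hy
    rw [Set.Finite.mem_toFinset]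
    exact ⟨i, rfl⟩
  have h1 := Finset.card_le_card hsub
  rw [Set.ncard_eq_toFinset_card _ (cycle_finite hC)]
  have h2 : ((Finset.range 11).image fun i => T^[i] (-17) : Finset ℤ).card = 11 := by decide
  omega

theorem long_mono {L L' : ℕ} (h : L ≤ L') : Long L' ⊆ Long L := by
  rintro x ⟨C, hC, hL, hm⟩
  exact ⟨C, hC, by omega, hm⟩

/-! ### finitely many periodic points of a given period -/

theorem T_even {x : ℤ} (h : x % 2 = 0) : 2 * T x = x := by
  unfold T
  rw [if_pos h]
  omega

theorem T_odd {x : ℤ} (h : ¬ x % 2 = 0) : 2 * T x = 3 * x + 1 := by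
  unfold T
  rw [if_neg h]
  omega

theorem same_parity (p : ℕ) : ∀ x y : ℤ, (∀ i < p, (T^[i] x) % 2 = (T^[i] y) % 2) →
    ∃ k : ℕ, 2 ^ p * (T^[p] x - T^[p] y) = 3 ^ k * (x - y) := by
  induction p with
  | zero => exact fun x y _ => ⟨0, by simp⟩
  | succ p ih =>
    intro x y h
    obtain ⟨k, hk⟩ := ih (T x) (T y) (fun i hi => by
      have := h (i + 1) (by omega)
      rwa [Function.iterate_succ_apply, Function.iterate_succ_apply] at this)
    rw [Function.iterate_succ_apply, Function.iterate_succ_apply]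
    have h0 : x % 2 = y % 2 := h 0 (by omega)
    by_cases hx : x % 2 = 0
    · have e1 := T_even hx
      have e2 := T_even (x := y) (by omega)
      refine ⟨k, ?_⟩
      calc (2 : ℤ) ^ (p + 1) * (T^[p] (T x) - T^[p] (T y))
          = 2 * (2 ^ p * (T^[p] (T x) - T^[p] (T y))) := by ring
        _ = 2 * (3 ^ k * (T x - T y)) := by rw [hk]
        _ = 3 ^ k * (2 * T x - 2 * T y) := by ring
        _ = 3 ^ k * (x - y) := by rw [e1, e2]
    · have e1 := T_odd hx
      have e2 := T_odd (x := y) (by omega)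
      refine ⟨k + 1, ?_⟩
      calc (2 : ℤ) ^ (p + 1) * (T^[p] (T x) - T^[p] (T y))
          = 2 * (2 ^ p * (T^[p] (T x) - T^[p] (T y))) := by ring
        _ = 2 * (3 ^ k * (T x - T y)) := by rw [hk]
        _ = 3 ^ k * (2 * T x - 2 * T y) := by ring
        _ = 3 ^ (k + 1) * (x - y) := by rw [e1, e2]; ring

theorem fixed_finite {p : ℕ} (hp : 1 ≤ p) : {x : ℤ | T^[p] x = x}.Finite := by
  refine Set.Finite.of_injOn (f := fun x : ℤ => fun i : Fin p => decide ((T^[i] x) % 2 = 0))
    (t := Set.univ) (fun _ _ => Set.mem_univ _) ?_ Set.finite_univ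
  intro x hx y hy hxy
  have h1 : ∀ i < p, (T^[i] x) % 2 = (T^[i] y) % 2 := by
    intro i hi
    have h2 := congrFun hxy ⟨i, hi⟩
    have h3 : ((T^[i] x) % 2 = 0 ↔ (T^[i] y) % 2 = 0) := by
      simpa using h2
    omega
  obtain ⟨k, hk⟩ := same_parity p x y h1
  rw [show T^[p] x = x from hx, show T^[p] y = y from hy] at hk
  have h4 : ((2 : ℤ) ^ p - 3 ^ k) * (x - y) = 0 := by linarith
  rcases mul_eq_zero.1 h4 with h5 | h5
  · exfalso
    have h6 : (2 : ℤ) ^ p = 3 ^ k := by linarith
    have h7 : Even ((2 : ℤ) ^ p) := (Int.even_pow.2 ⟨even_two, by omega⟩)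
    rw [h6] at h7
    have h8 : Odd ((3 : ℤ) ^ k) := Odd.pow (by decide)
    exact (Int.not_even_iff_odd.2 h8) h7
  · linarith

theorem cycle_small {C : Set ℤ} (hC : IsCycle C) {L : ℕ} (hL : C.ncard ≤ L) :
    ∃ x ∈ ⋃ q ∈ Finset.Icc 1 L, {x : ℤ | T^[q] x = x}, C = orbit x := by
  have hfin := cycle_finite hC
  have hCC := hC
  obtain ⟨x, p, hp, h, rfl⟩ := hC
  have hmaps : ∀ i ∈ Finset.range (L + 1), T^[i] x ∈ hfin.toFinset := by
    intro i _
    rw [Set.Finite.mem_toFinset]
    exact ⟨i, rfl⟩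
  have hcard : hfin.toFinset.card < (Finset.range (L + 1)).card := by
    rw [← Set.ncard_eq_toFinset_card _ hfin, Finset.card_range]
    omega
  obtain ⟨i, hi, j, hj, hij, he⟩ := Finset.exists_ne_map_eq_of_card_lt_of_maps_to hcard hmaps
  rw [Finset.mem_range] at hi hj
  have key : ∀ i j : ℕ, i < j → j < L + 1 → T^[i] x = T^[j] x →
      x ∈ ⋃ q ∈ Finset.Icc 1 L, {x : ℤ | T^[q] x = x} := by
    intro i j hij hj he
    rw [Set.mem_iUnion₂]
    refine ⟨j - i, Finset.mem_Icc.2 ⟨by omega, by omega⟩, ?_⟩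
    have hi2 : i ≤ p * i := Nat.le_mul_of_pos_left i hp
    have h1 : T^[p * i - i] (T^[i] x) = x := by
      rw [← Function.iterate_add_apply, show p * i - i + i = p * i by omega, mult_per h]
    have h2 : T^[p * i - i] (T^[j] x) = T^[j - i] x := by
      rw [← Function.iterate_add_apply, show p * i - i + j = (j - i) + p * i by omega,
        Function.iterate_add_apply, mult_per h]
    show T^[j - i] x = x
    rw [← h2, ← he, h1]
  rcases Nat.lt_or_gt_of_ne hij with h1 | h1
  · exact ⟨x, key i j h1 hj he, rfl⟩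
  · exact ⟨x, key j i h1 hi he.symm, rfl⟩

theorem finite_of_empty {L : ℕ} (h : ∀ s : ℤ, (s = 1 ∨ s = -1) → ¬ ∃ x ∈ Long L, 0 < s * x) :
    {C : Set ℤ | IsCycle C}.Finite := by
  have hF : (⋃ q ∈ Finset.Icc 1 (L + 1), {x : ℤ | T^[q] x = x}).Finite :=
    Set.Finite.biUnion (Finset.finite_toSet _) fun q hq =>
      fixed_finite (Finset.mem_Icc.1 (Finset.mem_coe.1 hq)).1
  refine (hF.image orbit).subset ?_
  intro C hC
  have hle : C.ncard ≤ L + 1 := by
    by_contra hcon
    have hCC : IsCycle C := hC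
    obtain ⟨x, p, hp, hx, hCx⟩ := hC
    have hxC : x ∈ C := by rw [hCx]; exact ⟨0, rfl⟩
    have hlong : x ∈ Long L := ⟨C, hCC, by omega, 0, hxC⟩
    rcases lt_trichotomy x 0 with h1 | h1 | h1
    · exact h (-1) (Or.inr rfl) ⟨x, hlong, by omega⟩
    · have hsub : C ⊆ {0} := by
        rw [hCx, h1]
        rintro z ⟨j, rfl⟩
        have : ∀ j : ℕ, T^[j] 0 = 0 := by
          intro j
          induction j with
          | zero => rfl
          | succ j ih => rw [Function.iterate_succ_apply', ih]; decide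
        rw [this j]
        rfl
      have h2 := Set.ncard_le_ncard hsub (Set.toFinite _)
      rw [Set.ncard_singleton] at h2
      omega
    · exact h 1 (Or.inl rfl) ⟨x, hlong, by omega⟩
  obtain ⟨x, hx, hCx⟩ := cycle_small hC hle
  exact ⟨x, hx, hCx.symm⟩

theorem empty_of_finite (h : {C : Set ℤ | IsCycle C}.Finite) : ∃ L : ℕ, 2 ≤ L ∧ Long L = ∅ := by
  obtain ⟨N, hN⟩ := (h.image Set.ncard).bddAbove
  refine ⟨N + 2, by omega, ?_⟩
  rw [Set.eq_empty_iff_forall_notMem]
  rintro x ⟨C, hC, hL, -⟩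
  have := hN ⟨C, hC, rfl⟩
  omega

/-- `Long L` is the set of the integers whose orbit enters a periodic orbit of the `3x + 1` map `T_3`
with more than `L` elements.

(1) Let `L ≥ 2` and let `s` be a sign such that some integer of sign `s` is in `Long L`. For every `M`
the odd `n` with `s n` in `Long L`, such that no even `m ≥ 1` at a distance of at most `M` from `n` has
`s m` in `Long L`, have a divergent sum of reciprocals. For `0 < θ < 1/2` there are infinitely many
such `n` for the distance `exp ((log n) ^ θ)`, and the sum of `exp ((log n) ^ θ) / n` over them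
diverges.

(2) The conclusions of (1) hold, unconditionally, for `s = -1` and `2 ≤ L ≤ 10`.

(3) Let `0 < θ < 1/2`. The following are equivalent: (i) `T_3` has only finitely many periodic orbits on
the integers; (ii) there is `L ≥ 2` such that for both signs `s`, for all but finitely many odd `n` with
`s n` in `Long L`, some even `m ≥ 1` at a distance of at most `exp ((log n) ^ θ)` from `n` is such that
`s m` is in `Long L`; (iii) there is `L ≥ 2` such that for both signs `s` the sum of
`exp ((log n) ^ θ) / n` over the exceptions to (ii) converges. -/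
theorem result :
    (∀ s : ℤ, (s = 1 ∨ s = -1) → ∀ L : ℕ, 2 ≤ L → (∃ x ∈ Long L, 0 < s * x) →
      ManyIsolated s (Long L)) ∧
    (∀ L : ℕ, 2 ≤ L → L ≤ 10 → ManyIsolated (-1) (Long L)) ∧
    ∀ θ : ℝ, 0 < θ → θ < 1 / 2 →
      [{C : Set ℤ | IsCycle C}.Finite,
        ∃ L : ℕ, 2 ≤ L ∧ ∀ s : ℤ, (s = 1 ∨ s = -1) → ∀ᶠ n : ℕ in atTop, n % 2 = 1 →
          s * (n : ℤ) ∈ Long L →
          ∃ m : ℕ, 1 ≤ m ∧ m % 2 = 0 ∧ |(m : ℝ) - n| ≤ radius θ n ∧ s * (m : ℤ) ∈ Long L,
        ∃ L : ℕ, 2 ≤ L ∧ ∀ s : ℤ, (s = 1 ∨ s = -1) →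
          Summable fun n : Isolated s (radius θ) (Long L) => radius θ n / ((n : ℕ) : ℝ)].TFAE := by
  have part1 : ∀ s : ℤ, (s = 1 ∨ s = -1) → ∀ L : ℕ, 2 ≤ L → (∃ x ∈ Long L, 0 < s * x) →
      ManyIsolated s (Long L) := fun s hs L hL hx => many hs (long_inv L) hx (compl_long hs hL)
  refine ⟨part1, fun L hL hL' => part1 (-1) (Or.inr rfl) L hL
    ⟨-17, long_mono hL' long_ten, by norm_num⟩, ?_⟩
  intro θ hθ hθ1
  have hfin : ∀ (s : ℤ) (S : Set ℤ), (∀ᶠ n : ℕ in atTop, n ∉ Isolated s (radius θ) S) →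
      (Isolated s (radius θ) S).Finite := by
    intro s S h
    obtain ⟨N, hN⟩ := h.exists_forall_of_atTop
    apply (Set.finite_Iio N).subset
    intro n hn
    by_contra hcon
    exact hN n (by simpa using hcon) hn
  tfae_have 1 → 2 := by
    intro h
    obtain ⟨L, hL, he⟩ := empty_of_finite h
    refine ⟨L, hL, fun s _ => Eventually.of_forall fun n _ hn => ?_⟩
    rw [he] at hn
    exact absurd hn (Set.notMem_empty _)
  tfae_have 2 → 3 := by
    rintro ⟨L, hL, h⟩
    refine ⟨L, hL, fun s hs => summable_of_finite (hfin s _ ?_) fun n => radius θ n / (n : ℝ)⟩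
    filter_upwards [h s hs] with n hn hn'
    obtain ⟨h3, h4, h5⟩ := hn'
    obtain ⟨m, hm1, hm2, hm3, hm4⟩ := hn h3 h4
    exact h5 m hm1 hm2 hm3 hm4
  tfae_have 3 → 1 := by
    rintro ⟨L, hL, h⟩
    refine finite_of_empty (L := L) fun s hs hx => ?_
    exact ((part1 s hs L hL hx).2 θ hθ hθ1).2 (h s hs)
  tfae_finish

end Pool.Agent.Results.MP_dee342_nt.LongCycles
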