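import Mathlib
import Pool.Agent.Run7.h603.Dl2

set_option autoImplicit false

/-!
# Product sets of finite unions of cycles of the maps `T_3`, `T_5` and `T_a`

Let `a ≥ 3` be odd (`a = 3`, `5` are the maps of the question), `T_a x = x / 2` for even `x` and
`(a x + 1) / 2` for odd `x`, and let `P` be a finite union of cycles of `T_a` on the integers, of either
sign, not containing `0`: there may be one long cycle or many short ones. Let `P` have `n` elements, and
let `X` be the set of its odd elements, or a subset which contains almost all of them. Then the set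
`X^(N)` of the products of `N` elements of `X` has at least `(n / C) ^ (log N / (log log N + 7/5))`
elements, for every `N ≥ 2`, with `C = 64` for `T_3`, `C = 144` for `T_5` and `C = 16 L ^ 2` for `T_a`,
`a < 2 ^ L`. So the exponent tends to infinity with `N`. For `N = 2` there is the exponent `5 / 4`, hence
`|X X| ≤ K |X|` is only possible if `n ≤ (4 C) ^ 5 K ^ 4`. Moreover `X` expands every finite set of
rational numbers by multiplication.

Method. `T_a` permutes `P`. The product of the quotients `|T_a y| / |y|` is `1`, so at least `n / L`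
elements are odd; each of them is followed by a block of the orbit up to the next odd element, and the
blocks are disjoint. So for some `k < 2 L` and one of the signs there is a set `B` of at least
`n / (8 L ^ 2)` odd elements `y` such that `(a y + 1) / 2 ^ k` is again an odd element of `P`. The
numbers `a |y|` and the shifted numbers `1 ± a |y|` are therefore both, up to constant factors, in `X`,
and the theorems on products of shifted sets of `Pool/Agent/Run7/h603` (built on the starting files
`Pool/Agent/N811/IS` for the theorem of Bourgain and Chang, and `Pool/Agent/W975/SP` for two factors) apply.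
The hand-in `MP_d02c56_nt.ProductsOfTrajectories` has single trajectories of the map `3 x + 1`; new here
are the maps with `a = 5` and larger, and the unions of cycles, without any condition on the number or
the lengths of the cycles.
-/

namespace Pool.Agent.Results.MP_dee342_nt.ProductsOfCycles

/-- The map `T_{a,b}`: `x / 2` for even `x`, `(a x + b) / 2` for odd `x`. -/
def T (a b : ℤ) (x : ℤ) : ℤ := if x % 2 = 0 then x / 2 else (a * x + b) / 2

/-- The odd elements of `P`. -/
def odds (P : Finset ℤ) : Finset ℤ := P.filter fun y => y % 2 = 1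

/-- The set of the products of `N` elements of `X` (which need not be distinct). -/
def prods (N : ℕ) (X : Finset ℤ) : Finset ℤ :=
  (Fintype.piFinset fun _ : Fin N => X).image fun f => ∏ i, f i

/-- The exponent `log N / (log log N + 7/5)`. -/
noncomputable def expo (N : ℕ) : ℝ := Real.log N / (Real.log (Real.log N) + 7 / 5)

/-- The product sets of the set `X` of nonzero integers are large in terms of the number `s`. -/
def Large (X : Finset ℤ) (s : ℝ) : Prop :=
  -- products of `N` elements
  (∀ N : ℕ, 2 ≤ N → s ^ expo N ≤ ((prods N X).card : ℝ)) ∧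
  -- products of two elements
  (s / 4) ^ (5 / 4 : ℝ) ≤ ((prods 2 X).card : ℝ) ∧
  -- products with the elements of an arbitrary set
  ∀ Y : Finset ℚ, Y.Nonempty → (0 : ℚ) ∉ Y → ∀ (N : ℕ) (t β : ℝ), 2 ≤ N → 2 ≤ t → 0 ≤ β →
    1 / (2 ^ (1 / t) - 1) ≤ ((N : ℝ) - (N - 1) * (2 ^ (1 / t) - 1)) ^ β →
    s ^ (1 + β) * (Y.card : ℝ) ^ (1 - 1 / t) ≤
      ((Finset.image₂ (fun (z : ℤ) (y : ℚ) => (z : ℚ) * y) X Y).card : ℝ) *
        ((prods N X).card : ℝ) ^ β

theorem general (a : ℤ) (L : ℕ) (ha : a % 2 = 1) (ha3 : 3 ≤ a) (hL : a < 2 ^ L) (P X : Finset ℤ)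
    (hne : P.Nonempty) (h0 : (0 : ℤ) ∉ P) (hP : P.image (T a 1) = P) (hX : X ⊆ odds P)
    (hmiss : 32 * L ^ 2 * (odds P \ X).card ≤ P.card) :
    Large X ((P.card : ℝ) / (16 * L ^ 2)) := by
  obtain ⟨h1, h2, h3⟩ := Run7.h603.Q.cycles ha ha3 (show a + 1 ≤ 2 ^ L by omega) h0 hP hne X hX hmiss
  refine ⟨h1, ?_, h3⟩
  have e : (P.card : ℝ) / (16 * L ^ 2) / 4 = (P.card : ℝ) / (64 * L ^ 2) := by
    rw [div_div]
    congr 1
    ring
  rw [e]
  exact h2

theorem result :
    -- 1. the map `T_3`: `P` is a finite union of cycles, `X` a set of odd elements of `P`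
    (∀ P X : Finset ℤ, P.Nonempty → (0 : ℤ) ∉ P → P.image (T 3 1) = P → X ⊆ odds P →
      128 * (odds P \ X).card ≤ P.card → Large X ((P.card : ℝ) / 64)) ∧
    -- 2. the map `T_5`
    (∀ P X : Finset ℤ, P.Nonempty → (0 : ℤ) ∉ P → P.image (T 5 1) = P → X ⊆ odds P →
      288 * (odds P \ X).card ≤ P.card → Large X ((P.card : ℝ) / 144)) ∧
    -- 3. the map `T_a` for an arbitrary odd `a ≥ 3`
    (∀ (a : ℤ) (L : ℕ), a % 2 = 1 → 3 ≤ a → a < 2 ^ L → ∀ P X : Finset ℤ, P.Nonempty →
      (0 : ℤ) ∉ P → P.image (T a 1) = P → X ⊆ odds P →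
      32 * L ^ 2 * (odds P \ X).card ≤ P.card → Large X ((P.card : ℝ) / (16 * L ^ 2))) ∧
    -- 4. arbitrary sets of integers: `B` is a part of `X` which is mapped into `X` by
    -- `y ↦ (a y + 1) / 2 ^ k`, and `σ` is the common sign of the elements of `B`
    (∀ (a σ : ℤ) (k : ℕ) (X B : Finset ℤ), 2 ≤ a → σ = 1 ∨ σ = -1 → B.Nonempty → B ⊆ X →
      (∀ y ∈ B, 0 < σ * y) → (∀ y ∈ B, ∃ z ∈ X, a * y + 1 = 2 ^ k * z) →
      (∀ N : ℕ, 2 ≤ N → (B.card : ℝ) ^ expo N ≤ ((prods N X).card : ℝ)) ∧
        B.card ^ 5 ≤ 512 * (prods 2 X).card ^ 4) := by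
  refine ⟨?_, ?_, ?_, ?_⟩
  · intro P X hne h0 hP hX hmiss
    have h := general 3 2 (by norm_num) (by norm_num) (by norm_num) P X hne h0 hP hX
      (by norm_num; exact hmiss)
    norm_num at h
    exact h
  · intro P X hne h0 hP hX hmiss
    have h := general 5 3 (by norm_num) (by norm_num) (by norm_num) P X hne h0 hP hX
      (by norm_num; exact hmiss)
    norm_num at h
    exact h
  · intro a L ha ha3 hL P X hne h0 hP hX hmiss
    exact general a L ha ha3 hL P X hne h0 hP hX hmiss
  · intro a σ k X B ha hσ hB hBX hs hf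
    refine ⟨fun N hN => Run7.h603.Q.growth a ha σ hσ k X B hB hBX hs hf hN,
      Run7.h603.Q.two_factors a ha k X B hBX ?_ hf⟩
    rintro y hy rfl
    have := hs 0 hy
    simp at this

end Pool.Agent.Results.MP_dee342_nt.ProductsOfCycles
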