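import Pool.Agent.Run7.h914.MC.Cyc

set_option autoImplicit false

/-!
# Cycles of the `3x+1` map and rational functions modulo large primes

For a prime `p` between `N ^ δ` and `N ^ (2 - δ)` and rational functions `R_1, …, R_r` modulo `p` no
nontrivial linear combination of which is a polynomial of degree at most two (for example `R_1(n) = 1 / n`),
consider the integers `n` for which the residues `R_i(n)` lie in given intervals modulo `p`. This is the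
structure `Datum` of the library, with `Datum.Mem` (membership) and `Datum.vol` (the proportion of the box).
The basins of the cycles of the `3x+1` map, also the union of any set of them, have their proportional share
in every such set, with a power saving which is uniform in everything. Hence sparse sets of this kind decide
whether there are only finitely many cycles, and bound their number.
-/

namespace Pool.Agent.Results.MP_dee342_nt.RationalFunctionsModP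

open Filter Topology
open Run7.h914.MC (Datum cnt Dens InvIn)

/-- The map `T_{3,1}` on the integers. -/
def T (x : ℤ) : ℤ := if x % 2 = 0 then x / 2 else (3 * x + 1) / 2

/-- `Z` is a cycle (periodic orbit) of the `3x+1` map. -/
def IsCycle (Z : Finset ℤ) : Prop :=
  ∃ (x : ℤ) (p : ℕ), 1 ≤ p ∧ T^[p] x = x ∧ Z = (Finset.range p).image fun i => T^[i] x

/-- the orbit of `x` reaches `Z` -/
def Reaches (x : ℤ) (Z : Finset ℤ) : Prop := ∃ j : ℕ, T^[j] x ∈ Z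

/-- the number of the `1 ≤ n ≤ X` with the property `P` -/
noncomputable def count (P : ℕ → Prop) (X : ℕ) : ℝ := ({n : ℕ | 1 ≤ n ∧ n ≤ X ∧ P n}.ncard : ℝ)

/-- The set of the positive integers with the property `P` has natural density `l`. -/
def HasDensity (P : ℕ → Prop) (l : ℝ) : Prop := Tendsto (fun X : ℕ => count P X / X) atTop (𝓝 l)

/-- `n` has a multiplicative inverse modulo `p` in `α, α + 1, …, α + (k - 1)` -/
def InverseIn (p : ℕ) (α : ZMod p) (k n : ℕ) : Prop := ¬ p ∣ n ∧ ∃ j : ℕ, j < k ∧ (n : ZMod p)⁻¹ = α + (j : ZMod p)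

/-- For arbitrarily large `N` there is a datum of volume `v ≥ N ^ (-δ / 8000)` such that at least `θ v N` of the
`n ≤ N` in its set have the property `P`. -/
def ManyInSparseSets (r : ℕ) (δ θ : ℝ) (P : ℕ → Prop) : Prop :=
  ∀ N₀ : ℕ, ∃ N : ℕ, N₀ ≤ N ∧ ∃ D : Datum δ N r, (N : ℝ) ^ (-(δ / 8000)) ≤ D.vol ∧
    θ * D.vol * N ≤ count (fun n => D.Mem n ∧ P n) N

/-- For every `ε > 0` and arbitrarily large `N` there is a datum of volume `v ≥ N ^ (-δ / 8000)` such that at most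
`ε v N` of the `n ≤ N` in its set have the property `P`. -/
def FewInSparseSets (r : ℕ) (δ : ℝ) (P : ℕ → Prop) : Prop :=
  ∀ ε : ℝ, 0 < ε → ∀ N₀ : ℕ, ∃ N : ℕ, N₀ ≤ N ∧ ∃ D : Datum δ N r, (N : ℝ) ^ (-(δ / 8000)) ≤ D.vol ∧
    count (fun n => D.Mem n ∧ P n) N ≤ ε * D.vol * N

/-- CYCLES OF THE `3x+1` MAP AND RATIONAL FUNCTIONS MODULO LARGE PRIMES.

(1) (Uniform transfer.) For `0 < δ ≤ 1` and `r` there is `K` such that for all `N ≥ 1`, all data `D` (a prime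
`p` between `N ^ δ` and `N ^ (2 - δ)`, `r` rational functions of degree at most `N ^ (δ / 200)` modulo `p` and
`r` intervals modulo `p`), both signs `s`, every set `𝒰` of cycles and all `X ≤ N` the number of the `n ≤ X` in
the set of `D` for which the orbit of `s n` ends in a cycle of `𝒰` is `D.vol` times the number of all such
`n ≤ X`, up to `K N ^ (1 - δ / 4000)`.

(2) For every cycle `Z` with elements of the sign of `s` the `n` for which the orbit of `s n` ends in `Z` have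
a natural density `l > 0`, and for all `δ`, `r` and `ε > 0`, all large `N` and all data `D` with
`D.vol ≥ N ^ (-δ / 8000)` the number of such `n ≤ N` in the set of `D` is `l D.vol N` up to `ε D.vol N`; in
particular for all primes `p` between `N ^ δ` and `N ^ (2 - δ)` and all intervals of `k ≥ p N ^ (-δ / 8000)`
residues modulo `p` the number of such `n ≤ N` with an inverse modulo `p` in the interval is `l (k / p) N` up
to `ε (k / p) N`.

(3) A set `𝒰` of cycles has at most `1 / θ` elements if for each of them and suitable `r` and `δ`, for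
arbitrarily large `N`, there is a datum `D` with `D.vol ≥ N ^ (-δ / 8000)` such that the orbits of at least
`θ D.vol N` of the `s n`, `n ≤ N` in the set of `D`, end in this cycle.

(4) The `3x+1` map has only finitely many cycles on the integers if and only if there is a finite set `𝒰` of
cycles such that for both signs `s` there are `r` and `δ` such that for every `ε > 0`, for arbitrarily large
`N`, there is a datum `D` with `D.vol ≥ N ^ (-δ / 8000)` such that the orbits of at most `ε D.vol N` of the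
`s n`, `n ≤ N` in the set of `D`, end in a cycle outside `𝒰`. All cycles are then in `𝒰` or equal to `{0}`. -/
theorem result :
    (∀ (r : ℕ) (δ : ℝ), 0 < δ → δ ≤ 1 → ∃ K : ℝ, ∀ N : ℕ, 1 ≤ N → ∀ D : Datum δ N r, ∀ s : ℤ, s = 1 ∨ s = -1 →
      ∀ 𝒰 : Set (Finset ℤ), (∀ Z ∈ 𝒰, IsCycle Z) → ∀ X : ℕ, X ≤ N →
        |count (fun n => D.Mem n ∧ ∃ Z ∈ 𝒰, Reaches (s * n) Z) X -
          D.vol * count (fun n => ∃ Z ∈ 𝒰, Reaches (s * n) Z) X| ≤ K * (N : ℝ) ^ (1 - δ / 4000)) ∧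
    (∀ s : ℤ, s = 1 ∨ s = -1 → ∀ Z : Finset ℤ, IsCycle Z → (∀ x ∈ Z, 0 < s * x) → ∃ l : ℝ, 0 < l ∧
      HasDensity (fun n => Reaches (s * n) Z) l ∧
      (∀ (r : ℕ) (δ : ℝ), 0 < δ → δ ≤ 1 → ∀ ε : ℝ, 0 < ε → ∃ N₀ : ℕ, ∀ N : ℕ, N₀ ≤ N → ∀ D : Datum δ N r,
        (N : ℝ) ^ (-(δ / 8000)) ≤ D.vol →
        |count (fun n => D.Mem n ∧ Reaches (s * n) Z) N - l * D.vol * N| ≤ ε * D.vol * N) ∧
      (∀ δ : ℝ, 0 < δ → δ ≤ 1 → ∀ ε : ℝ, 0 < ε → ∃ N₀ : ℕ, ∀ N : ℕ, N₀ ≤ N → ∀ p : ℕ, p.Prime →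
        (N : ℝ) ^ δ ≤ p → (p : ℝ) ≤ (N : ℝ) ^ (2 - δ) → ∀ (α : ZMod p) (k : ℕ), k ≤ p →
        (N : ℝ) ^ (-(δ / 8000)) ≤ (k : ℝ) / p →
        |count (fun n => InverseIn p α k n ∧ Reaches (s * n) Z) N - l * ((k : ℝ) / p) * N| ≤
          ε * ((k : ℝ) / p) * N)) ∧
    (∀ s : ℤ, s = 1 ∨ s = -1 → ∀ θ : ℝ, 0 < θ → ∀ 𝒰 : Set (Finset ℤ), (∀ Z ∈ 𝒰, IsCycle Z) →
      (∀ Z ∈ 𝒰, ∃ (r : ℕ) (δ : ℝ), 0 < δ ∧ δ ≤ 1 ∧ ManyInSparseSets r δ θ (fun n => Reaches (s * n) Z)) →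
      𝒰.Finite ∧ (𝒰.ncard : ℝ) ≤ 1 / θ) ∧
    (∀ 𝒰 : Set (Finset ℤ), (∀ s : ℤ, s = 1 ∨ s = -1 → ∃ (r : ℕ) (δ : ℝ), 0 < δ ∧ δ ≤ 1 ∧
      FewInSparseSets r δ (fun n => ∃ Z : Finset ℤ, IsCycle Z ∧ Z ∉ 𝒰 ∧ Reaches (s * n) Z)) →
      ∀ Z : Finset ℤ, IsCycle Z → Z ∈ 𝒰 ∨ Z = {0}) ∧
    ({Z : Finset ℤ | IsCycle Z}.Finite ↔ ∃ 𝒰 : Set (Finset ℤ), 𝒰.Finite ∧
      ∀ s : ℤ, s = 1 ∨ s = -1 → ∃ (r : ℕ) (δ : ℝ), 0 < δ ∧ δ ≤ 1 ∧
        FewInSparseSets r δ (fun n => ∃ Z : Finset ℤ, IsCycle Z ∧ Z ∉ 𝒰 ∧ Reaches (s * n) Z)) := by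
  have hodd : (1 : ℤ) % 2 = 1 := by norm_num
  have h3 : ¬ (3 : ℤ) ∣ 1 := by norm_num
  have hfin : ∀ 𝒰 : Set (Finset ℤ), (∀ s : ℤ, s = 1 ∨ s = -1 → ∃ (r : ℕ) (δ : ℝ), 0 < δ ∧ δ ≤ 1 ∧
      FewInSparseSets r δ (fun n => ∃ Z : Finset ℤ, IsCycle Z ∧ Z ∉ 𝒰 ∧ Reaches (s * n) Z)) →
      ∀ Z : Finset ℤ, IsCycle Z → Z ∈ 𝒰 ∨ Z = {0} := fun 𝒰 h =>
    Run7.h914.MC.cyc_finite (d := 1) hodd h3 𝒰 h
  refine ⟨fun r δ hδ hδ1 => ?_, fun s hs Z hZ hpos => ?_, fun s hs θ hθ 𝒰 hU h => ?_, hfin, ⟨fun h => ?_, ?_⟩⟩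
  · obtain ⟨K, hK, h⟩ := Run7.h914.MC.inv_sets r δ hδ hδ1
    refine ⟨K, fun N hN D s hs 𝒰 hU X hX => ?_⟩
    have hS : ∀ x, x ∈ {x | ∃ Z ∈ 𝒰, Reaches x Z} ↔ Pool.Agent.H499R2.ND.Td 1 x ∈ {x | ∃ Z ∈ 𝒰, Reaches x Z} := by
      intro x
      refine exists_congr fun Z => and_congr_right fun hZ => ?_
      exact Run7.h914.MC.fall_inv (hU Z hZ) x
    have hN1 : (1 : ℝ) ≤ N := by exact_mod_cast hN
    exact h N hN D 1 hodd (by
      rw [Int.cast_one, abs_one]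
      exact Real.one_le_rpow hN1 (by positivity)) s hs {x | ∃ Z ∈ 𝒰, Reaches x Z} hS X hX
  · have hS : ∀ x, x ∈ {x | Reaches x Z} ↔ Pool.Agent.H499R2.ND.Td 1 x ∈ {x | Reaches x Z} := fun x =>
      Run7.h914.MC.fall_inv hZ x
    obtain ⟨l, _, _, hl, _⟩ := Run7.h914.MC.dens_inv (d := 1) hodd isCoprime_one_left hs hS
    obtain ⟨l', _, _, hl'⟩ := Pool.Agent.H499R2.ND.dens_side odd_one isCoprime_one_left hs (S := {x | Reaches x Z}) hS
    have hne : ∃ x, x ∈ Z := by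
      obtain ⟨x, p, hp, hx, hZ2⟩ := id hZ
      refine ⟨x, ?_⟩
      rw [hZ2, Finset.mem_image]
      exact ⟨0, Finset.mem_range.2 (by omega), rfl⟩
    obtain ⟨x, hx⟩ := hne
    have hpl : 0 < l' := Pool.Agent.H499R2.ND.one_pos hs (S := {x | Reaches x Z}) hS (a := x) ⟨0, hx⟩ (hpos x hx) hl'
    have hl2 : Dens (fun n => s * (n : ℤ) ∈ {x | Reaches x Z}) l' := by
      unfold Dens
      exact (Pool.Agent.H499R2.ND.HD_ncard hs hl').congr fun N => by rw [Run7.h914.MC.side_cnt hs]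
    refine ⟨l', hpl, hl2, fun r δ hδ hδ1 ε hε => ?_, fun δ hδ hδ1 ε hε => ?_⟩
    · exact Run7.h914.MC.inv_rel r δ hδ hδ1 hodd isCoprime_one_left hs (S := {x | Reaches x Z}) hS hl2 ε hε
    · exact Run7.h914.MC.inv_law hδ
        (Run7.h914.MC.inv_rel 1 δ hδ hδ1 hodd isCoprime_one_left hs (S := {x | Reaches x Z}) hS hl2 ε hε)
  · exact Run7.h914.MC.cyc_count (d := 1) hodd h3 hs hθ 𝒰 hU h
  · refine ⟨_, h, fun s hs => ⟨0, 1 / 2, by norm_num, by norm_num, ?_⟩⟩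
    exact Run7.h914.MC.few_none fun n _ ⟨Z, h1, h2, _⟩ => h2 h1
  · rintro ⟨𝒰, hU, h⟩
    refine (hU.union (Set.finite_singleton {0})).subset fun Z hZ => ?_
    exact hfin 𝒰 h Z hZ

end Pool.Agent.Results.MP_dee342_nt.RationalFunctionsModP
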